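import Pool.Agent.W850.HT.Char

/-!
# Poisson random measure with rate `r` on a countable family of unit squares

A block is a number of points and a sequence of positions in the unit square.
-/

set_option autoImplicit false

open MeasureTheory ProbabilityTheory Set Filter Topology
open scoped NNReal ENNReal

namespace Q298.St

open Pool.Agent.W850.HT (unif integral_prod_infinitePi)

/-- the law of a mark: uniform in the unit square -/
noncomputable def mkl : Measure (ℝ × ℝ) := unif.prod unif

instance : IsProbabilityMeasure mkl := by unfold mkl; infer_instance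

/-- A block: number of points and their positions. -/
abbrev Blk := ℕ × (ℕ → ℝ × ℝ)

/-- The law of a block of rate `r`. -/
noncomputable def blk (r : ℝ≥0) : Measure Blk :=
  (poissonMeasure r).prod (Measure.infinitePi fun _ : ℕ => mkl)

instance (r : ℝ≥0) : IsProbabilityMeasure (blk r) := by unfold blk; infer_instance

theorem measurable_blk {g : ℝ × ℝ → ℂ} (hg : Measurable g) :
    Measurable (fun b : Blk => ∏ i ∈ Finset.range b.1, g (b.2 i)) := by
  apply measurable_from_prod_countable_right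
  intro k
  simp only
  exact Finset.measurable_prod (Finset.range k) (fun i _ => hg.comp (measurable_pi_apply i))

theorem integral_blk (r : ℝ≥0) {g : ℝ × ℝ → ℂ} (hg : Measurable g) (hb : ∀ u, ‖g u‖ ≤ 1) :
    ∫ b, ∏ i ∈ Finset.range b.1, g (b.2 i) ∂(blk r) =
      Complex.exp (r * ((∫ u, g u ∂mkl) - 1)) := by
  have hint : Integrable (fun b : Blk => ∏ i ∈ Finset.range b.1, g (b.2 i)) (blk r) := by
    refine Integrable.of_bound (measurable_blk hg).aestronglyMeasurable 1 (ae_of_all _ ?_)
    intro b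
    rw [norm_prod]
    exact Finset.prod_le_one (fun i _ => norm_nonneg _) (fun i _ => hb _)
  rw [blk] at hint ⊢
  rw [integral_prod _ hint]
  have h1 : ∀ k : ℕ, ∫ U, ∏ i ∈ Finset.range k, g (U i) ∂(Measure.infinitePi fun _ : ℕ => mkl) =
      (∫ u, g u ∂mkl) ^ k := by
    intro k
    rw [integral_prod_infinitePi (fun _ : ℕ => mkl) (Finset.range k) (fun _ => g) (fun _ => hg)]
    simp
  simp_rw [h1]
  rw [integral_poissonMeasure r]
  calc ∑' n : ℕ, (Real.exp (-r) * r ^ n / (n.factorial)) • (∫ u, g u ∂mkl) ^ n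
      = ∑' n : ℕ, (Real.exp (-r) : ℂ) * ((r * (∫ u, g u ∂mkl)) ^ n / n.factorial) := by
        congr with n
        rw [Complex.real_smul]
        push_cast
        rw [mul_pow]
        ring
    _ = (Real.exp (-r) : ℂ) * ∑' n : ℕ, ((r * (∫ u, g u ∂mkl)) ^ n / n.factorial) := tsum_mul_left
    _ = (Real.exp (-r) : ℂ) * Complex.exp (r * (∫ u, g u ∂mkl)) := by
        rw [(NormedSpace.expSeries_div_hasSum_exp (r * (∫ u, g u ∂mkl))).tsum_eq,
          Complex.exp_eq_exp_ℂ]
    _ = _ := by
        rw [Complex.ofReal_exp, ← Complex.exp_add]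
        push_cast
        ring_nf

/-- The index of a block: time block, level, sign. -/
abbrev Ix := ℕ × ℕ × Bool

/-- The sample space. -/
abbrev Om := Ix → Blk

/-- The law: all blocks have rate `r`. -/
noncomputable def PP (r : ℝ≥0) : Measure Om := Measure.infinitePi (fun _ : Ix => blk r)

instance (r : ℝ≥0) : IsProbabilityMeasure (PP r) := by unfold PP; infer_instance

theorem integral_PP (r : ℝ≥0) (S : Finset Ix) {g : Ix → ℝ × ℝ → ℂ}
    (hg : ∀ p, Measurable (g p)) (hb : ∀ p u, ‖g p u‖ ≤ 1) :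
    ∫ ω : Om, ∏ p ∈ S, ∏ i ∈ Finset.range (ω p).1, g p ((ω p).2 i) ∂(PP r) =
      ∏ p ∈ S, Complex.exp (r * ((∫ u, g p u ∂mkl) - 1)) := by
  rw [PP, integral_prod_infinitePi (fun _ : Ix => blk r) S
    (fun p b => ∏ i ∈ Finset.range b.1, g p (b.2 i)) (fun p => measurable_blk (hg p))]
  exact Finset.prod_congr rfl (fun p _ => integral_blk _ (hg p) (hb p))

theorem measurable_count (p : Ix) : Measurable (fun ω : Om => (ω p).1) :=
  measurable_fst.comp (measurable_pi_apply p)

/-- the mean number of points of a block is finite -/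
theorem lintegral_count (r : ℝ≥0) (p : Ix) :
    ∫⁻ ω : Om, ((ω p).1 : ℝ≥0∞) ∂(PP r) ≤ ENNReal.ofReal (Real.exp r) := by
  have h1 : ∫⁻ ω : Om, ((ω p).1 : ℝ≥0∞) ∂(PP r) = ∫⁻ b : Blk, (b.1 : ℝ≥0∞) ∂(blk r) := by
    have hmap : (PP r).map (fun ω : Om => ω p) = blk r := by
      unfold PP
      exact (measurePreserving_eval_infinitePi (fun _ : Ix => blk r) p).map_eq
    rw [← hmap, lintegral_map]
    · exact (measurable_of_countable _).comp measurable_fst
    · exact measurable_pi_apply p
  have h2 : ∫⁻ b : Blk, (b.1 : ℝ≥0∞) ∂(blk r) = ∫⁻ n : ℕ, (n : ℝ≥0∞) ∂(poissonMeasure r) := by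
    have hm : Measurable (fun b : Blk => (b.1 : ℝ≥0∞)) :=
      (measurable_of_countable (fun n : ℕ => (n : ℝ≥0∞))).comp measurable_fst
    unfold blk
    rw [lintegral_prod _ hm.aemeasurable]
    simp
  rw [h1, h2, lintegral_countable']
  simp_rw [poissonMeasure_singleton]
  have h3 : ∀ n : ℕ, (n : ℝ≥0∞) * ENNReal.ofReal (Real.exp (-r) * r ^ n / n.factorial) ≤
      ENNReal.ofReal (Real.exp (-r) * ((2 * r) ^ n / n.factorial)) := by
    intro n
    rw [← ENNReal.ofReal_natCast, ← ENNReal.ofReal_mul (Nat.cast_nonneg _)]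
    apply ENNReal.ofReal_le_ofReal
    have hn : (n : ℝ) ≤ 2 ^ n := by exact_mod_cast Nat.lt_two_pow_self.le
    have h4 : 0 ≤ Real.exp (-r) * (r : ℝ) ^ n / n.factorial := by positivity
    calc (n : ℝ) * (Real.exp (-r) * r ^ n / n.factorial)
        ≤ 2 ^ n * (Real.exp (-r) * r ^ n / n.factorial) := mul_le_mul_of_nonneg_right hn h4
      _ = Real.exp (-r) * ((2 * r) ^ n / n.factorial) := by rw [mul_pow]; ring
  refine (ENNReal.tsum_le_tsum h3).trans ?_
  have hs := (Real.summable_pow_div_factorial (2 * r)).mul_left (Real.exp (-r))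
  rw [← ENNReal.ofReal_tsum_of_nonneg (fun n => by positivity) hs, tsum_mul_left]
  apply ENNReal.ofReal_le_ofReal
  have h5 : ∑' n : ℕ, (2 * (r : ℝ)) ^ n / n.factorial = Real.exp (2 * r) := by
    rw [Real.exp_eq_exp_ℝ]
    exact (NormedSpace.expSeries_div_hasSum_exp (2 * (r : ℝ))).tsum_eq
  rw [h5, ← Real.exp_add]
  apply Real.exp_le_exp.mpr
  linarith

end Q298.St
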