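import Pool.Agent.Q298.St.Path

/-!
# Characteristic function of the increments
-/

set_option autoImplicit false

open MeasureTheory ProbabilityTheory Set Filter Topology
open scoped NNReal ENNReal

namespace Q298.St

open Pool.Agent.W850.HT (unif step measurable_step cexp_step sum_integral_unif
  intervalIntegrable_indicator integral_indicator_Ioc)

/-- the sign of a block -/
def sg (b : Bool) : ℝ := if b then 1 else -1

theorem ae_ok : ∀ᵐ z ∂mkl, z ∈ okSet := by
  unfold mkl unif
  rw [Measure.prod_restrict]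
  exact ae_restrict_mem measurableSet_ok

/-! ### the exponent -/

/-- the basic function `w ↦ w ^ (-6)` -/
noncomputable def pw (w : ℝ) : ℝ := (w ^ 6)⁻¹

theorem measurable_pw : Measurable pw := by unfold pw; fun_prop

/-- the constant `∫ (1 - cos (w ^ (-6))) dw` -/
noncomputable def c0 : ℝ := ∫ w in Ioi (0 : ℝ), (1 - Real.cos (pw w))

theorem integrableOn_pw : IntegrableOn pw (Ioi 1) := by
  have h := integrableOn_Ioi_rpow_of_lt (a := (-6 : ℝ)) (by norm_num) (c := 1) one_pos
  refine h.congr_fun (fun w hw => ?_) measurableSet_Ioi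
  have hw0 : (0 : ℝ) < w := one_pos.trans hw
  simp only [pw]
  rw [Real.rpow_neg hw0.le]
  norm_cast

theorem integrable_of_bounds {E : Type*} [NormedAddCommGroup E] {F : ℝ → E}
    (hF : AEStronglyMeasurable F volume) (C : ℝ) (h1 : ∀ w, ‖F w‖ ≤ C)
    (h2 : ∀ w, ‖F w‖ ≤ C * pw w) : IntegrableOn F (Ioi 0) := by
  have h3 : Ioi (0 : ℝ) = Ioc 0 1 ∪ Ioi 1 := (Ioc_union_Ioi_eq_Ioi zero_le_one).symm
  rw [h3]
  refine IntegrableOn.union ?_ ?_
  · exact Integrable.of_bound hF.restrict C (ae_of_all _ h1)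
  · exact (integrableOn_pw.const_mul C).mono' hF.restrict (ae_of_all _ h2)

theorem norm_cexp_sub_one_le (x : ℝ) : ‖Complex.exp (x * Complex.I) - 1‖ ≤ |x| := by
  have := Real.norm_exp_I_mul_ofReal_sub_one_le (x := x)
  rw [mul_comm] at this
  simpa using this

theorem norm_cexp_sub_one_le_two (x : ℝ) : ‖Complex.exp (x * Complex.I) - 1‖ ≤ 2 := by
  calc ‖Complex.exp (x * Complex.I) - 1‖ ≤ ‖Complex.exp (x * Complex.I)‖ + ‖(1 : ℂ)‖ :=
        norm_sub_le _ _
    _ = 2 := by rw [Complex.norm_exp_ofReal_mul_I, norm_one]; norm_num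

/-- the function whose integral over `(0, M)` is the exponent -/
noncomputable def F (θ : ℝ) (w : ℝ) : ℂ := Complex.exp ((θ * pw w : ℝ) * Complex.I) - 1

theorem measurable_F (θ : ℝ) : Measurable (F θ) := by
  unfold F
  have := measurable_pw
  fun_prop

theorem integrableOn_F (θ : ℝ) : IntegrableOn (F θ) (Ioi 0) := by
  refine integrable_of_bounds (measurable_F θ).aestronglyMeasurable (|θ| + 2) (fun w => ?_)
    (fun w => ?_)
  · exact (norm_cexp_sub_one_le_two _).trans (by linarith [abs_nonneg θ])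
  · have hp : 0 ≤ pw w := by unfold pw; positivity
    refine (norm_cexp_sub_one_le _).trans ?_
    rw [abs_mul, abs_of_nonneg hp]
    exact mul_le_mul_of_nonneg_right (by linarith) hp

theorem intervalIntegrable_F (θ a b : ℝ) : IntervalIntegrable (F θ) volume a b := by
  exact ⟨Measure.integrableOn_of_bounded measure_Ioc_lt_top.ne
    (measurable_F θ).aestronglyMeasurable (ae_of_all _ fun w => norm_cexp_sub_one_le_two _),
    Measure.integrableOn_of_bounded measure_Ioc_lt_top.ne
    (measurable_F θ).aestronglyMeasurable (ae_of_all _ fun w => norm_cexp_sub_one_le_two _)⟩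

theorem integrableOn_cos : IntegrableOn (fun w => 1 - Real.cos (pw w)) (Ioi 0) := by
  have h := (integrableOn_F 1).re
  have h2 := h.neg
  refine h2.congr (ae_of_all _ fun w => ?_)
  simp only [F, Pi.neg_apply, one_mul]
  change -(Complex.exp ((pw w : ℂ) * Complex.I) - 1).re = _
  rw [Complex.sub_re, Complex.exp_ofReal_mul_I_re, Complex.one_re]
  ring

theorem c0_pos : 0 < c0 := by
  unfold c0
  rw [setIntegral_pos_iff_support_of_nonneg_ae
    (ae_of_all _ fun w => by simpa using Real.cos_le_one _) integrableOn_cos]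
  refine lt_of_lt_of_le ?_ (measure_mono (s := Ioi (1 : ℝ)) ?_)
  · simp
  · intro w hw
    have hw1 : (1 : ℝ) < w := hw
    refine ⟨?_, one_pos.trans hw1⟩
    have h1 : (1 : ℝ) < w ^ 6 := one_lt_pow₀ hw1 (by norm_num)
    have h2 : 0 < pw w := by unfold pw; positivity
    have h3 : pw w < 1 := by unfold pw; exact inv_lt_one_of_one_lt₀ h1
    have h4 : Real.cos (pw w) < 1 := by
      rw [← Real.cos_zero]
      exact Real.cos_lt_cos_of_nonneg_of_le_pi le_rfl (by linarith [Real.pi_gt_three]) h2
    simp only [Function.mem_support]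
    linarith

theorem integral_cos_scale (θ : ℝ) :
    ∫ w in Ioi (0 : ℝ), (1 - Real.cos (θ * pw w)) = |θ| ^ (1 / 6 : ℝ) * c0 := by
  by_cases h0 : θ = 0
  · subst h0
    simp [Real.zero_rpow]
  · have hpos : 0 < |θ| := abs_pos.mpr h0
    set a : ℝ := |θ| ^ (-(1 / 6) : ℝ) with ha
    have ha0 : 0 < a := Real.rpow_pos_of_pos hpos _
    have ha6 : a ^ 6 = |θ|⁻¹ := by
      rw [ha, ← Real.rpow_natCast, ← Real.rpow_mul hpos.le]
      norm_num
      rw [Real.rpow_neg_one]
    have h1 := integral_comp_mul_left_Ioi (fun w => 1 - Real.cos (pw w)) 0 ha0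
    rw [mul_zero] at h1
    have h2 : ∀ w, 1 - Real.cos (pw (a * w)) = 1 - Real.cos (θ * pw w) := by
      intro w
      have : pw (a * w) = |θ| * pw w := by
        unfold pw
        rw [mul_pow, ha6, mul_inv, inv_inv]
      rw [this]
      rcases abs_choice θ with h | h <;> rw [h]
      rw [neg_mul, Real.cos_neg]
    simp_rw [h2] at h1
    rw [h1, smul_eq_mul]
    unfold c0
    congr 1
    rw [ha, Real.rpow_neg hpos.le, inv_inv]

theorem integral_F_add (θ : ℝ) :
    (∫ w in Ioi (0 : ℝ), F θ w) + ∫ w in Ioi (0 : ℝ), F (-θ) w =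
      ((-(2 * (|θ| ^ (1 / 6 : ℝ) * c0)) : ℝ) : ℂ) := by
  rw [← integral_add (integrableOn_F θ) (integrableOn_F (-θ)), ← integral_cos_scale,
    ← integral_const_mul, ← integral_neg, ← integral_complex_ofReal]
  congr 1
  ext w
  simp only [F]
  push_cast
  rw [neg_mul, neg_mul]
  have := Complex.two_cos (x := (θ : ℂ) * (pw w : ℂ))
  rw [neg_mul] at this
  linear_combination (-1 : ℂ) * this

end Q298.St
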