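import Mathlib

/-!
# A decaying Fourier transform forces small balls to have small measure
-/

set_option autoImplicit false

open MeasureTheory ProbabilityTheory Set Filter Topology
open scoped NNReal ENNReal

namespace Q298.St

/-- the weight `exp (- u ^ 2) |u| ^ (- 1 / 3)` -/
noncomputable def gw (u : ℝ) : ℝ := |u| ^ (-(1 / 3) : ℝ) * Real.exp (-1 * |u| ^ 2)

theorem integrable_gw : Integrable gw := by
  have h := integrableOn_rpow_mul_exp_neg_mul_sq (b := 1) one_pos (s := (-(1 / 3) : ℝ))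
    (by norm_num)
  have hf : IntegrableOn gw (Ioi 0) := by
    refine h.congr_fun (fun x hx => ?_) measurableSet_Ioi
    have hx0 : (0 : ℝ) < x := hx
    simp only [gw, abs_of_pos hx0]
  have int_Iic : IntegrableOn gw (Iic 0) := by
    rw [← Measure.map_neg_eq_self (volume : Measure ℝ)]
    let m : MeasurableEmbedding fun x : ℝ => -x := (Homeomorph.neg ℝ).measurableEmbedding
    rw [m.integrableOn_map_iff]
    simp_rw [Function.comp_def, gw, abs_neg, neg_preimage, neg_Iic, neg_zero]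
    exact Iff.mpr integrableOn_Ici_iff_integrableOn_Ioi hf
  have h3 := int_Iic.union hf
  rw [Iic_union_Ioi] at h3
  exact integrableOn_univ.mp h3

theorem gw_nonneg (u : ℝ) : 0 ≤ gw u := by unfold gw; positivity

theorem gw_scale {r : ℝ} (hr : 0 < r) (u : ℝ) :
    |u| ^ (-(1 / 3) : ℝ) * Real.exp (-(r ^ 3) ^ 2 * u ^ 2) = r * gw (r ^ 3 * u) := by
  unfold gw
  have h1 : |r ^ 3 * u| = r ^ 3 * |u| := by rw [abs_mul, abs_of_pos (by positivity)]
  rw [h1, Real.mul_rpow (by positivity) (abs_nonneg u), mul_pow, sq_abs]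
  have h2 : (r ^ 3) ^ (-(1 / 3) : ℝ) = r⁻¹ := by
    rw [← Real.rpow_natCast r 3, ← Real.rpow_mul hr.le]
    norm_num
    rw [Real.rpow_neg_one]
  rw [h2]
  have h3 : -(r ^ 3) ^ 2 * u ^ 2 = -1 * ((r ^ 3) ^ 2 * u ^ 2) := by ring
  rw [h3]
  field_simp

theorem integral_scale {r : ℝ} (hr : 0 < r) :
    ∫ u : ℝ, |u| ^ (-(1 / 3) : ℝ) * Real.exp (-(r ^ 3) ^ 2 * u ^ 2) =
      (r ^ 2)⁻¹ * ∫ u, gw u := by
  simp_rw [gw_scale hr]
  rw [integral_const_mul, Measure.integral_comp_mul_left, smul_eq_mul,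
    abs_of_pos (by positivity)]
  field_simp

theorem integrable_scale {r : ℝ} (hr : 0 < r) :
    Integrable fun u : ℝ => |u| ^ (-(1 / 3) : ℝ) * Real.exp (-(r ^ 3) ^ 2 * u ^ 2) := by
  simp_rw [gw_scale hr]
  exact (integrable_gw.comp_mul_left' (by positivity)).const_mul r

/-- the characteristic function bound for all nonzero frequencies -/
theorem char_bound {ν : Measure ℝ} [IsProbabilityMeasure ν] {C : ℝ}
    (h : ∀ η : ℝ, 1 ≤ |η| → ‖∫ y, Complex.exp (((η * y : ℝ) : ℂ) * Complex.I) ∂ν‖ ≤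
      C * |η| ^ (-(1 / 3) : ℝ)) {η : ℝ} (hη : η ≠ 0) :
    ‖∫ y, Complex.exp (((η * y : ℝ) : ℂ) * Complex.I) ∂ν‖ ≤ max C 1 * |η| ^ (-(1 / 3) : ℝ) := by
  have hp : 0 ≤ |η| ^ (-(1 / 3) : ℝ) := Real.rpow_nonneg (abs_nonneg _) _
  rcases le_or_gt 1 |η| with h1 | h1
  · exact (h η h1).trans (mul_le_mul_of_nonneg_right (le_max_left _ _) hp)
  · have h2 : ‖∫ y, Complex.exp (((η * y : ℝ) : ℂ) * Complex.I) ∂ν‖ ≤ 1 := by
      refine (norm_integral_le_integral_norm _).trans ?_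
      simp_rw [Complex.norm_exp_ofReal_mul_I]
      simp
    have h3 : 1 ≤ |η| ^ (-(1 / 3) : ℝ) :=
      Real.one_le_rpow_of_pos_of_le_one_of_nonpos (abs_pos.mpr hη) h1.le (by norm_num)
    calc _ ≤ 1 := h2
      _ ≤ 1 * |η| ^ (-(1 / 3) : ℝ) := by rw [one_mul]; exact h3
      _ ≤ _ := mul_le_mul_of_nonneg_right (le_max_right _ _) hp

theorem ball_le {ν : Measure ℝ} [IsProbabilityMeasure ν] {C : ℝ}
    (h : ∀ η : ℝ, 1 ≤ |η| → ‖∫ y, Complex.exp (((η * y : ℝ) : ℂ) * Complex.I) ∂ν‖ ≤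
      C * |η| ^ (-(1 / 3) : ℝ)) (x : ℝ) {r : ℝ} (hr : 0 < r) :
    ν.real (Metric.closedBall x (r ^ 3)) ≤
      (Real.exp (1 / 4) * (max C 1 * ∫ u, gw u)) * r := by
  set ρ : ℝ := r ^ 3 with hρ
  have hρ0 : 0 < ρ := by positivity
  -- the Gaussian integral
  have hgauss : ∀ y : ℝ, ∫ η : ℝ, Complex.exp (((η * (y - x) : ℝ) : ℂ) * Complex.I) *
      ((Real.exp (-ρ ^ 2 * η ^ 2) : ℝ) : ℂ) =
      (((Real.pi / ρ ^ 2) ^ (1 / 2 : ℝ) * Real.exp (-(y - x) ^ 2 / (4 * ρ ^ 2)) : ℝ) : ℂ) := by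
    intro y
    have h1 := fourierIntegral_gaussian (b := ((ρ ^ 2 : ℝ) : ℂ)) (by
      rw [Complex.ofReal_re]; positivity) ((y - x : ℝ) : ℂ)
    have h2 : ∀ η : ℝ, Complex.exp (((η * (y - x) : ℝ) : ℂ) * Complex.I) *
        ((Real.exp (-ρ ^ 2 * η ^ 2) : ℝ) : ℂ) =
        Complex.exp (Complex.I * ((y - x : ℝ) : ℂ) * η) *
          Complex.exp (-((ρ ^ 2 : ℝ) : ℂ) * (η : ℂ) ^ 2) := by
      intro η
      rw [Complex.ofReal_exp]
      congr 1
      · congr 1
        push_cast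
        ring
      · congr 1
        push_cast
        ring
    simp_rw [h2]
    rw [h1]
    have h3 : (0 : ℝ) ≤ Real.pi / ρ ^ 2 := by positivity
    rw [Complex.ofReal_mul, Complex.ofReal_cpow h3, Complex.ofReal_exp]
    congr 1
    · push_cast; rfl
    · congr 1; push_cast; rfl
  -- Fubini
  have hint : Integrable (Function.uncurry fun (y η : ℝ) =>
      Complex.exp (((η * (y - x) : ℝ) : ℂ) * Complex.I) *
      ((Real.exp (-ρ ^ 2 * η ^ 2) : ℝ) : ℂ)) (ν.prod volume) := by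
    have hg : Integrable (fun η : ℝ => Real.exp (-ρ ^ 2 * η ^ 2)) :=
      integrable_exp_neg_mul_sq (by positivity)
    have h1 : Integrable (fun z : ℝ × ℝ => (1 : ℝ) * Real.exp (-ρ ^ 2 * z.2 ^ 2))
        (ν.prod volume) := (integrable_const (1 : ℝ)).mul_prod hg
    refine h1.mono' ?_ (ae_of_all _ fun z => ?_)
    · apply Measurable.aestronglyMeasurable
      simp only [Function.uncurry_def]
      fun_prop
    · simp only [Function.uncurry_def]
      rw [norm_mul, Complex.norm_exp_ofReal_mul_I, Complex.norm_real, Real.norm_of_nonneg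
        (Real.exp_pos _).le]
  have hfub := integral_integral_swap hint
  simp_rw [hgauss] at hfub
  -- the left side
  have hleft : (∫ y, (((Real.pi / ρ ^ 2) ^ (1 / 2 : ℝ) *
      Real.exp (-(y - x) ^ 2 / (4 * ρ ^ 2)) : ℝ) : ℂ) ∂ν) =
      (((Real.pi / ρ ^ 2) ^ (1 / 2 : ℝ) * ∫ y, Real.exp (-(y - x) ^ 2 / (4 * ρ ^ 2)) ∂ν : ℝ) : ℂ) := by
    rw [integral_complex_ofReal, integral_const_mul]
  rw [hleft] at hfub
  -- the right side
  have hright : ∀ η : ℝ, (∫ y, Complex.exp (((η * (y - x) : ℝ) : ℂ) * Complex.I) *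
      ((Real.exp (-ρ ^ 2 * η ^ 2) : ℝ) : ℂ) ∂ν) =
      ((Real.exp (-ρ ^ 2 * η ^ 2) : ℝ) : ℂ) * (Complex.exp (((-(η * x) : ℝ) : ℂ) * Complex.I) *
        ∫ y, Complex.exp (((η * y : ℝ) : ℂ) * Complex.I) ∂ν) := by
    intro η
    rw [← integral_const_mul, ← integral_const_mul]
    congr 1
    ext y
    rw [← Complex.exp_add, mul_comm]
    congr 2
    push_cast
    ring
  simp_rw [hright] at hfub
  have hnorm : (Real.pi / ρ ^ 2) ^ (1 / 2 : ℝ) * ∫ y, Real.exp (-(y - x) ^ 2 / (4 * ρ ^ 2)) ∂ν ≤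
      max C 1 * ((r ^ 2)⁻¹ * ∫ u, gw u) := by
    have h0 : 0 ≤ (Real.pi / ρ ^ 2) ^ (1 / 2 : ℝ) *
        ∫ y, Real.exp (-(y - x) ^ 2 / (4 * ρ ^ 2)) ∂ν := by positivity
    rw [← Real.norm_of_nonneg h0, ← Complex.norm_real, hfub, ← integral_scale hr,
      ← integral_const_mul]
    refine norm_integral_le_of_norm_le ((integrable_scale hr).const_mul _) ?_
    have hne : ∀ᵐ η : ℝ, η ≠ 0 := by
      rw [ae_iff]; simp
    filter_upwards [hne] with η hη
    rw [norm_mul, norm_mul, Complex.norm_exp_ofReal_mul_I, one_mul, Complex.norm_real,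
      Real.norm_of_nonneg (Real.exp_pos _).le, ← hρ]
    have h1 := char_bound h hη
    calc Real.exp (-ρ ^ 2 * η ^ 2) * ‖∫ y, Complex.exp (((η * y : ℝ) : ℂ) * Complex.I) ∂ν‖
        ≤ Real.exp (-ρ ^ 2 * η ^ 2) * (max C 1 * |η| ^ (-(1 / 3) : ℝ)) :=
          mul_le_mul_of_nonneg_left h1 (Real.exp_pos _).le
      _ = _ := by ring
  -- the ball
  have hball : Real.exp (-(1 / 4)) * ν.real (Metric.closedBall x ρ) ≤
      ∫ y, Real.exp (-(y - x) ^ 2 / (4 * ρ ^ 2)) ∂ν := by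
    have h1 : Integrable (fun y : ℝ => Real.exp (-(y - x) ^ 2 / (4 * ρ ^ 2))) ν := by
      refine Integrable.of_bound ?_ 1 (ae_of_all _ fun y => ?_)
      · apply Measurable.aestronglyMeasurable
        fun_prop
      · rw [Real.norm_of_nonneg (Real.exp_pos _).le, Real.exp_le_one_iff]
        apply div_nonpos_of_nonpos_of_nonneg
        · nlinarith [sq_nonneg (y - x)]
        · positivity
    have h2 : Real.exp (-(1 / 4)) * ν.real (Metric.closedBall x ρ) =
        ∫ y, (Metric.closedBall x ρ).indicator (fun _ => Real.exp (-(1 / 4))) y ∂ν := by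
      rw [integral_indicator Metric.isClosed_closedBall.measurableSet, setIntegral_const,
        smul_eq_mul, mul_comm]
    rw [h2]
    refine integral_mono_of_nonneg (ae_of_all _ fun y => ?_) h1 (ae_of_all _ fun y => ?_)
    · exact indicator_nonneg (fun _ _ => (Real.exp_pos _).le) _
    · by_cases hy : y ∈ Metric.closedBall x ρ
      · rw [indicator_of_mem hy]
        apply Real.exp_le_exp.mpr
        rw [Metric.mem_closedBall, Real.dist_eq] at hy
        have h3 : (y - x) ^ 2 ≤ ρ ^ 2 := by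
          rw [← sq_abs]; exact pow_le_pow_left₀ (abs_nonneg _) hy 2
        rw [neg_div, neg_le_neg_iff, div_le_div_iff₀ (by positivity) (by norm_num)]
        linarith
      · rw [indicator_of_notMem hy]
        exact (Real.exp_pos _).le
  -- conclusion
  have hsqrt : (Real.pi / ρ ^ 2) ^ (1 / 2 : ℝ) = Real.sqrt Real.pi / r ^ 3 := by
    rw [← Real.sqrt_eq_rpow, Real.sqrt_div' _ (by positivity), Real.sqrt_sq hρ0.le]
  rw [hsqrt] at hnorm
  have hpi : 1 ≤ Real.sqrt Real.pi := by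
    rw [Real.one_le_sqrt]; linarith [Real.pi_gt_three]
  have hK : 0 ≤ ∫ u, gw u := integral_nonneg gw_nonneg
  set R : ℝ := ∫ y, Real.exp (-(y - x) ^ 2 / (4 * ρ ^ 2)) ∂ν with hR
  have hR0 : 0 ≤ R := by positivity
  have h5 : R ≤ (max C 1 * ∫ u, gw u) * r := by
    have h6 : R / r ^ 3 ≤ Real.sqrt Real.pi / r ^ 3 * R := by
      rw [div_mul_eq_mul_div]
      apply div_le_div_of_nonneg_right _ (by positivity)
      nlinarith
    have h7 := h6.trans hnorm
    rw [div_le_iff₀ (by positivity)] at h7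
    refine h7.trans (le_of_eq ?_)
    field_simp
  have h8 : ν.real (Metric.closedBall x ρ) ≤ Real.exp (1 / 4) * R := by
    have h9 := mul_le_mul_of_nonneg_left hball (Real.exp_pos (1 / 4)).le
    rw [← mul_assoc, ← Real.exp_add] at h9
    simpa using h9
  calc ν.real (Metric.closedBall x ρ) ≤ Real.exp (1 / 4) * R := h8
    _ ≤ Real.exp (1 / 4) * ((max C 1 * ∫ u, gw u) * r) :=
        mul_le_mul_of_nonneg_left h5 (Real.exp_pos _).le
    _ = _ := by ring

end Q298.St
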