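import Pool.Agent.Q298.St.Path
import Pool.Agent.Q298.St.Four

/-!
# Covering the range of the process
-/

set_option autoImplicit false

open MeasureTheory ProbabilityTheory Set Filter Topology
open scoped NNReal ENNReal

namespace Q298.St

/-- the cube root of the jump size -/
noncomputable def yy (m : ℕ) (z : ℝ × ℝ) : ℝ := (((m : ℝ) + z.2) ^ 2)⁻¹

theorem yy_nonneg (m : ℕ) (z : ℝ × ℝ) : 0 ≤ yy m z := by unfold yy; positivity

theorem sz_eq (m : ℕ) (z : ℝ × ℝ) : sz m z = yy m z ^ 3 := by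
  unfold sz yy
  rw [inv_pow, ← pow_mul]

theorem yy_le {m : ℕ} (hm : 1 ≤ m) {z : ℝ × ℝ} (hz : z ∈ okSet) : yy m z ≤ 1 / (m : ℝ) ^ 2 := by
  have h1 : (1 : ℝ) ≤ m := by exact_mod_cast hm
  have h2 : 0 < z.2 := hz.2.1
  unfold yy
  rw [← one_div]
  apply one_div_le_one_div_of_le (by positivity)
  gcongr
  linarith

/-- index of a mark in time block `0`: level, sign, number -/
abbrev Qx := Σ _ : ℕ × Bool, ℕ

/-- the mark with a given index -/
def mark (ω : Om) (m : ℕ) (b : Bool) (i : ℕ) : ℝ × ℝ := (ω (0, m, b)).2 i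

/-- the number of marks in a block of time block `0` -/
def cnt (ω : Om) (m : ℕ) (b : Bool) : ℕ := (ω (0, m, b)).1

/-- the indices of the marks of level `< M` -/
def QM (M : ℕ) (ω : Om) : Finset Qx :=
  (Finset.range M ×ˢ Finset.univ).sigma fun p => Finset.range (cnt ω p.1 p.2)

open Classical in
/-- the state at time `t`: the set of big jumps up to time `t` -/
noncomputable def Sta (M : ℕ) (ω : Om) (t : ℝ) : Finset Qx :=
  (QM M ω).filter fun q => mark ω q.1.1 q.1.2 q.2 ∈ okSet ∧ (mark ω q.1.1 q.1.2 q.2).1 ≤ t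

theorem Sta_mono (M : ℕ) (ω : Om) {s t : ℝ} (h : s ≤ t) : Sta M ω s ⊆ Sta M ω t := by
  classical
  intro q hq
  unfold Sta at hq ⊢
  rw [Finset.mem_filter] at hq ⊢
  exact ⟨hq.1, hq.2.1, hq.2.2.trans h⟩

open Classical in
/-- the weight of a small jump which happens in the state `a` -/
noncomputable def uu (M : ℕ) (ω : Om) (a : Finset Qx) (m : ℕ) (b : Bool) (i : ℕ) : ℝ≥0∞ :=
  if (M ≤ m ∧ mark ω m b i ∈ okSet) ∧ Sta M ω (mark ω m b i).1 = a then
    ENNReal.ofReal (yy m (mark ω m b i)) else 0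

/-- total weight of the small jumps in the state `a` -/
noncomputable def WW (M : ℕ) (ω : Om) (a : Finset Qx) : ℝ≥0∞ :=
  ∑ b : Bool, ∑' m : ℕ, ∑ i ∈ Finset.range (cnt ω m b), uu M ω a m b i

theorem sum_cube_le (M : ℕ) (ω : Om) (a : Finset Qx) :
    ∑ b : Bool, ∑' m : ℕ, ∑ i ∈ Finset.range (cnt ω m b), uu M ω a m b i ^ 3 ≤
      WW M ω a ^ 3 := by
  have h1 : ∀ b m, ∀ i ∈ Finset.range (cnt ω m b), uu M ω a m b i ≤ WW M ω a := by
    intro b m i hi
    calc uu M ω a m b i ≤ ∑ i ∈ Finset.range (cnt ω m b), uu M ω a m b i :=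
          Finset.single_le_sum (f := fun i => uu M ω a m b i) (fun _ _ => zero_le) hi
      _ ≤ ∑' m : ℕ, ∑ i ∈ Finset.range (cnt ω m b), uu M ω a m b i :=
          ENNReal.le_tsum (f := fun m => ∑ i ∈ Finset.range (cnt ω m b), uu M ω a m b i) m
      _ ≤ WW M ω a := Finset.single_le_sum
          (f := fun b => ∑' m : ℕ, ∑ i ∈ Finset.range (cnt ω m b), uu M ω a m b i)
          (fun _ _ => zero_le) (Finset.mem_univ b)
  calc ∑ b : Bool, ∑' m : ℕ, ∑ i ∈ Finset.range (cnt ω m b), uu M ω a m b i ^ 3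
      ≤ ∑ b : Bool, ∑' m : ℕ, ∑ i ∈ Finset.range (cnt ω m b), uu M ω a m b i * WW M ω a ^ 2 := by
        refine Finset.sum_le_sum fun b _ => ENNReal.tsum_le_tsum fun m =>
          Finset.sum_le_sum fun i hi => ?_
        rw [pow_succ' _ 2]
        exact mul_le_mul_right (pow_le_pow_left' (h1 b m i hi) 2) _
    _ = WW M ω a ^ 3 := by
        simp_rw [← Finset.sum_mul, ENNReal.tsum_mul_right, ← Finset.sum_mul]
        rw [pow_succ' _ 2]
        rfl

theorem sum_WW_le {M : ℕ} (hM : 1 ≤ M) (ω : Om) :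
    ∑' a, WW M ω a ≤ ∑ b : Bool, ∑' m : ℕ,
      if M ≤ m then ENNReal.ofReal ((cnt ω m b : ℝ) * (1 / (m : ℝ) ^ 2)) else 0 := by
  classical
  unfold WW
  have h1 : ∑' a : Finset Qx, ∑ b : Bool, ∑' m : ℕ, ∑ i ∈ Finset.range (cnt ω m b),
      uu M ω a m b i = ∑ b : Bool, ∑' m : ℕ, ∑ i ∈ Finset.range (cnt ω m b),
        ∑' a : Finset Qx, uu M ω a m b i := by
    rw [Summable.tsum_finsetSum fun b _ => ENNReal.summable]
    refine Finset.sum_congr rfl fun b _ => ?_
    rw [ENNReal.tsum_comm]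
    refine tsum_congr fun m => ?_
    rw [Summable.tsum_finsetSum fun i _ => ENNReal.summable]
  rw [h1]
  refine Finset.sum_le_sum fun b _ => ENNReal.tsum_le_tsum fun m => ?_
  have h2 : ∀ i, ∑' a : Finset Qx, uu M ω a m b i ≤
      if M ≤ m then ENNReal.ofReal (1 / (m : ℝ) ^ 2) else 0 := by
    intro i
    rw [tsum_eq_single (Sta M ω (mark ω m b i).1)]
    · unfold uu
      by_cases h3 : M ≤ m
      · rw [if_pos h3]
        split_ifs with h4
        · exact ENNReal.ofReal_le_ofReal (yy_le (hM.trans h3) h4.1.2)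
        · exact zero_le
      · rw [if_neg (fun h => h3 h.1.1)]
        exact zero_le
    · intro a ha
      unfold uu
      rw [if_neg (fun h => ha h.2.symm)]
  refine (Finset.sum_le_sum fun i _ => h2 i).trans ?_
  rw [Finset.sum_const, Finset.card_range, nsmul_eq_mul]
  split_ifs with h3
  · rw [ENNReal.ofReal_mul (Nat.cast_nonneg _), ENNReal.ofReal_natCast]
  · simp

/-- the tails tend to zero -/
theorem tendsto_tail {ω : Om} (hω : ω ∈ G) :
    Tendsto (fun M : ℕ => ∑ b : Bool, ∑' m : ℕ,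
      if M ≤ m then ENNReal.ofReal ((cnt ω m b : ℝ) * (1 / (m : ℝ) ^ 2)) else 0) atTop (𝓝 0) := by
  suffices hb : ∀ b : Bool, Tendsto (fun M : ℕ => ∑' m : ℕ,
      if M ≤ m then ENNReal.ofReal ((cnt ω m b : ℝ) * (1 / (m : ℝ) ^ 2)) else 0) atTop (𝓝 0) by
    have h := tendsto_finsetSum (Finset.univ : Finset Bool) (fun b _ => hb b)
    rwa [Finset.sum_const_zero] at h
  intro b
  have h1 : ∑' m : ℕ, ENNReal.ofReal ((cnt ω m b : ℝ) * (1 / (m : ℝ) ^ 2)) ≠ ∞ := by
    have h : Summable fun m : ℕ => ((cnt ω m b : ℝ)) * (1 / (m : ℝ) ^ 2) := hω 0 b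
    rw [← ENNReal.ofReal_tsum_of_nonneg (fun m => by positivity) h]
    exact ENNReal.ofReal_ne_top
  have h2 := ENNReal.tendsto_sum_nat_add _ h1
  refine h2.congr fun M => ?_
  rw [← Summable.sum_add_tsum_nat_add' (k := M) (f := fun m : ℕ =>
    if M ≤ m then ENNReal.ofReal ((cnt ω m b : ℝ) * (1 / (m : ℝ) ^ 2)) else 0) ENNReal.summable]
  have h3 : ∑ i ∈ Finset.range M, (if M ≤ i then
      ENNReal.ofReal ((cnt ω i b : ℝ) * (1 / (i : ℝ) ^ 2)) else 0) = 0 := by
    refine Finset.sum_eq_zero fun i hi => ?_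
    rw [Finset.mem_range] at hi
    rw [if_neg (by omega)]
  rw [h3, zero_add]
  refine tsum_congr fun k => ?_
  rw [if_pos (by omega)]

/-- the increments of one sign between two times with the same state -/
theorem T_sub_le {ω : Om} (hω : ω ∈ G) (M : ℕ) {a : Finset Qx} {s t : ℝ} (hst : s ≤ t)
    (ht : t ≤ 1) (hs' : Sta M ω s = a) (ht' : Sta M ω t = a) (b : Bool) :
    ENNReal.ofReal (T b t ω - T b s ω) ≤
      ∑' m : ℕ, ∑ i ∈ Finset.range (cnt ω m b), uu M ω a m b i ^ 3 := by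
  classical
  rw [T_eq hω, T_eq hω, ← (summable_f hω b t).tsum_sub (summable_f hω b s),
    ENNReal.ofReal_tsum_of_nonneg (fun p => sub_nonneg.2 (f_mono b ω p hst))
      ((summable_f hω b t).sub (summable_f hω b s)), ENNReal.tsum_prod']
  rw [tsum_eq_single 0]
  · refine ENNReal.tsum_le_tsum fun m => ?_
    unfold f
    rw [← Finset.sum_sub_distrib, ENNReal.ofReal_sum_of_nonneg
      (fun i _ => sub_nonneg.2 (jmp_mono _ _ _ hst))]
    refine Finset.sum_le_sum fun i hi => ?_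
    have hz : (ω (0, m, b)).2 i = mark ω m b i := rfl
    simp only
    rw [hz]
    by_cases h1 : (mark ω m b i ∈ okSet ∧ s < (mark ω m b i).1) ∧ (mark ω m b i).1 ≤ t
    · -- a jump in `(s, t]`
      obtain ⟨⟨h1, h2⟩, h3⟩ := h1
      have h4 : Sta M ω (mark ω m b i).1 = a := by
        apply Finset.Subset.antisymm
        · rw [← ht']; exact Sta_mono M ω h3
        · rw [← hs']; exact Sta_mono M ω h2.le
      have h5 : M ≤ m := by
        by_contra hcon
        push Not at hcon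
        have h6 : (⟨(m, b), i⟩ : Qx) ∈ Sta M ω t := by
          unfold Sta QM
          rw [Finset.mem_filter, Finset.mem_sigma]
          exact ⟨⟨by simpa using hcon, hi⟩, h1, h3⟩
        rw [ht', ← hs'] at h6
        unfold Sta at h6
        rw [Finset.mem_filter] at h6
        exact absurd h6.2.2 (not_le.2 h2)
      have h7 : uu M ω a m b i = ENNReal.ofReal (yy m (mark ω m b i)) := by
        unfold uu
        rw [if_pos ⟨⟨h5, h1⟩, h4⟩]
      rw [h7, ← ENNReal.ofReal_pow (yy_nonneg _ _), ← sz_eq]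
      apply ENNReal.ofReal_le_ofReal
      have h8 := jmp_nonneg 0 m s (mark ω m b i)
      have h9 : jmp 0 m t (mark ω m b i) ≤ sz m (mark ω m b i) := by
        unfold jmp
        split_ifs
        · exact le_rfl
        · exact sz_nonneg _ _
      linarith
    · have h2 : jmp 0 m t (mark ω m b i) - jmp 0 m s (mark ω m b i) = 0 := by
        unfold jmp
        by_cases hok : mark ω m b i ∈ okSet
        · by_cases h3 : ((0 : ℕ) : ℝ) + (mark ω m b i).1 ≤ s
          · rw [if_pos ⟨hok, h3.trans hst⟩, if_pos ⟨hok, h3⟩, sub_self]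
          · have h4 : ¬ ((0 : ℕ) : ℝ) + (mark ω m b i).1 ≤ t := by
              intro h4
              apply h1
              rw [Nat.cast_zero, zero_add] at h3 h4
              exact ⟨⟨hok, not_le.1 h3⟩, h4⟩
            rw [if_neg (fun h => h4 h.2), if_neg (fun h => h3 h.2), sub_zero]
        · rw [if_neg (fun h => hok h.1), if_neg (fun h => hok h.1), sub_zero]
      rw [h2, ENNReal.ofReal_zero]
      exact zero_le
  · intro k hk
    have h1 : (1 : ℝ) ≤ k := by exact_mod_cast Nat.one_le_iff_ne_zero.2 hk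
    rw [ENNReal.tsum_eq_zero]
    intro m
    have e1 : f b t ω (k, m) = 0 := f_eq_zero b ω (ht.trans h1)
    have e2 : f b s ω (k, m) = 0 := f_eq_zero b ω ((hst.trans ht).trans h1)
    simp only [e1, e2, sub_zero, ENNReal.ofReal_zero]

theorem X_sub_le_aux {ω : Om} (hω : ω ∈ G) (M : ℕ) {a : Finset Qx} {s t : ℝ} (hst : s ≤ t)
    (ht : t ≤ 1) (hs' : Sta M ω s = a) (ht' : Sta M ω t = a) :
    ENNReal.ofReal |X t ω - X s ω| ≤ WW M ω a ^ 3 := by
  refine le_trans ?_ (sum_cube_le M ω a)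
  rw [Fintype.sum_bool]
  refine le_trans ?_ (add_le_add (T_sub_le hω M hst ht hs' ht' true)
    (T_sub_le hω M hst ht hs' ht' false))
  have h1 := T_mono hω true hst
  have h2 := T_mono hω false hst
  simp only at h1 h2
  rw [← ENNReal.ofReal_add (by linarith) (by linarith)]
  apply ENNReal.ofReal_le_ofReal
  unfold X
  rw [abs_le]
  constructor <;> linarith

theorem X_sub_le {ω : Om} (hω : ω ∈ G) (M : ℕ) {a : Finset Qx} {s t : ℝ} (hs : s ≤ 1)
    (ht : t ≤ 1) (hs' : Sta M ω s = a) (ht' : Sta M ω t = a) :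
    ENNReal.ofReal |X t ω - X s ω| ≤ WW M ω a ^ 3 := by
  rcases le_total s t with h | h
  · exact X_sub_le_aux hω M h ht hs' ht'
  · rw [abs_sub_comm]
    exact X_sub_le_aux hω M h hs ht' hs'

/-- No measure on the graph over `[0, 1]` has Fourier decay of order `1 / 3`. -/
theorem no_decay {ω : Om} (hω : ω ∈ G) (μ : Measure (ℝ × ℝ)) (K : Set (ℝ × ℝ))
    [IsProbabilityMeasure μ]
    (hK : K ⊆ {p : ℝ × ℝ | p.1 ∈ Set.Icc (0 : ℝ) 1 ∧ p.2 = X p.1 ω}) (hμ : μ Kᶜ = 0) (C : ℝ)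
    (hC : ∀ ξ : ℝ × ℝ, 1 ≤ ‖ξ‖ →
      ‖∫ p, Complex.exp (((ξ.1 * p.1 + ξ.2 * p.2 : ℝ) : ℂ) * Complex.I) ∂μ‖
        ≤ C * ‖ξ‖ ^ (-(1 / 3) : ℝ)) : False := by
  set ν : Measure ℝ := μ.map Prod.snd with hν
  have : IsProbabilityMeasure ν := Measure.isProbabilityMeasure_map measurable_snd.aemeasurable
  have hνC : ∀ η : ℝ, 1 ≤ |η| → ‖∫ y, Complex.exp (((η * y : ℝ) : ℂ) * Complex.I) ∂ν‖ ≤
      C * |η| ^ (-(1 / 3) : ℝ) := by
    intro η hη
    have h1 := hC (0, η)
    have h2 : ‖((0 : ℝ), η)‖ = |η| := by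
      rw [Prod.norm_def]
      simp
    rw [h2] at h1
    have h3 := h1 hη
    rw [hν, integral_map measurable_snd.aemeasurable (by fun_prop)]
    simpa using h3
  set C' : ℝ := Real.exp (1 / 4) * (max C 1 * ∫ u, gw u) with hC'
  have hC'0 : 0 ≤ C' := by
    have := integral_nonneg (μ := volume) (f := gw) fun u => gw_nonneg u
    have h1 : (0 : ℝ) ≤ max C 1 := zero_le_one.trans (le_max_right _ _)
    positivity
  -- balls, including radius zero
  have hball : ∀ (x r : ℝ), 0 ≤ r → ν (Metric.closedBall x (r ^ 3)) ≤ ENNReal.ofReal (C' * r) := by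
    intro x r hr
    have h1 : ∀ r' : ℝ, 0 < r' → ν (Metric.closedBall x (r' ^ 3)) ≤ ENNReal.ofReal (C' * r') := by
      intro r' hr'
      have h2 := ball_le hνC x hr'
      rw [Measure.real, ← hC'] at h2
      exact (ENNReal.le_ofReal_iff_toReal_le (measure_ne_top _ _) (by positivity)).2 h2
    rcases hr.eq_or_lt with h0 | h0
    · rw [← h0]
      have h2 : Tendsto (fun r' : ℝ => ENNReal.ofReal (C' * r')) (𝓝[>] 0)
          (𝓝 (ENNReal.ofReal (C' * 0))) := by
        apply tendsto_nhdsWithin_of_tendsto_nhds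
        exact (ENNReal.continuous_ofReal.comp (continuous_const.mul continuous_id)).tendsto _
      refine ge_of_tendsto h2 ?_
      filter_upwards [self_mem_nhdsWithin] with r' hr'
      refine (measure_mono ?_).trans (h1 r' hr')
      apply Metric.closedBall_subset_closedBall
      have : (0 : ℝ) < r' := hr'
      simp only [ne_eq, OfNat.ofNat_ne_zero, not_false_eq_true, zero_pow]
      positivity
    · exact h1 r h0
  -- the inequality `1 ≤ C' * tail`
  have key : ∀ M : ℕ, 1 ≤ M → ∑' a, WW M ω a ≠ ∞ →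
      1 ≤ ENNReal.ofReal C' * ∑' a, WW M ω a := by
    intro M hM hfin
    have hWfin : ∀ a, WW M ω a ≠ ∞ := fun a =>
      ne_top_of_le_ne_top hfin (ENNReal.le_tsum a)
    have hex : ∀ a : Finset Qx, ∃ x : ℝ, ∀ t : ℝ, t ∈ Icc (0 : ℝ) 1 → Sta M ω t = a →
        X t ω ∈ Metric.closedBall x ((WW M ω a).toReal ^ 3) := by
      intro a
      by_cases h1 : ∃ s : ℝ, s ∈ Icc (0 : ℝ) 1 ∧ Sta M ω s = a
      · obtain ⟨s, hs1, hs2⟩ := h1
        refine ⟨X s ω, fun t ht1 ht2 => ?_⟩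
        rw [Metric.mem_closedBall, Real.dist_eq]
        have h2 := X_sub_le hω M hs1.2 ht1.2 hs2 ht2
        rw [← ENNReal.toReal_pow]
        exact (ENNReal.ofReal_le_iff_le_toReal (ENNReal.pow_ne_top (hWfin a))).1 h2
      · exact ⟨0, fun t ht1 ht2 => absurd ⟨t, ht1, ht2⟩ h1⟩
    choose x hx using hex
    have hcov : K ⊆ ⋃ a : Finset Qx, Prod.snd ⁻¹' Metric.closedBall (x a)
        ((WW M ω a).toReal ^ 3) := by
      intro p hp
      obtain ⟨h1, h2⟩ := hK hp
      rw [mem_iUnion]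
      refine ⟨Sta M ω p.1, ?_⟩
      rw [mem_preimage, h2]
      exact hx _ p.1 h1 rfl
    have h1 : (1 : ℝ≥0∞) ≤ μ K := by
      have h2 : μ univ ≤ μ K + μ Kᶜ := by
        rw [← union_compl_self K]; exact measure_union_le _ _
      rw [hμ, add_zero, measure_univ] at h2
      exact h2
    calc (1 : ℝ≥0∞) ≤ μ K := h1
      _ ≤ μ (⋃ a : Finset Qx, Prod.snd ⁻¹' Metric.closedBall (x a) ((WW M ω a).toReal ^ 3)) :=
          measure_mono hcov
      _ ≤ ∑' a : Finset Qx, μ (Prod.snd ⁻¹' Metric.closedBall (x a) ((WW M ω a).toReal ^ 3)) :=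
          measure_iUnion_le _
      _ = ∑' a : Finset Qx, ν (Metric.closedBall (x a) ((WW M ω a).toReal ^ 3)) := by
          refine tsum_congr fun a => ?_
          rw [hν, Measure.map_apply measurable_snd Metric.isClosed_closedBall.measurableSet]
      _ ≤ ∑' a : Finset Qx, ENNReal.ofReal C' * WW M ω a := by
          refine ENNReal.tsum_le_tsum fun a => ?_
          refine (hball _ _ ENNReal.toReal_nonneg).trans (le_of_eq ?_)
          rw [ENNReal.ofReal_mul hC'0, ENNReal.ofReal_toReal (hWfin a)]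
      _ = _ := ENNReal.tsum_mul_left
  -- the tail tends to zero
  have htail := tendsto_tail hω
  have h1 : Tendsto (fun M : ℕ => ENNReal.ofReal C' * ∑ b : Bool, ∑' m : ℕ,
      if M ≤ m then ENNReal.ofReal ((cnt ω m b : ℝ) * (1 / (m : ℝ) ^ 2)) else 0) atTop
      (𝓝 (ENNReal.ofReal C' * 0)) :=
    ENNReal.Tendsto.const_mul htail (Or.inr ENNReal.ofReal_ne_top)
  rw [mul_zero] at h1
  have h2 : ∀ᶠ M : ℕ in atTop, ENNReal.ofReal C' * (∑ b : Bool, ∑' m : ℕ,
      if M ≤ m then ENNReal.ofReal ((cnt ω m b : ℝ) * (1 / (m : ℝ) ^ 2)) else 0) < 1 :=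
    h1.eventually_lt_const one_pos
  have h3 : ∀ᶠ M : ℕ in atTop, (∑ b : Bool, ∑' m : ℕ,
      if M ≤ m then ENNReal.ofReal ((cnt ω m b : ℝ) * (1 / (m : ℝ) ^ 2)) else 0) < 1 :=
    htail.eventually_lt_const one_pos
  obtain ⟨M, ⟨hM2, hM3⟩, hM1⟩ := ((h2.and h3).and (eventually_ge_atTop 1)).exists
  have h4 := sum_WW_le hM1 ω
  have h5 := key M hM1 (ne_top_of_le_ne_top (ne_top_of_lt hM3) h4)
  exact absurd (h5.trans (mul_le_mul_right h4 _)) (not_le.2 hM2)

end Q298.St
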