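import Pool.Agent.Q298.St.Char

/-!
# Joint characteristic function of the increments of `X`
-/

set_option autoImplicit false

open MeasureTheory ProbabilityTheory Set Filter Topology
open scoped NNReal ENNReal

namespace Q298.St

open Pool.Agent.W850.HT (unif step measurable_step cexp_step sum_integral_unif
  intervalIntegrable_indicator integral_indicator_Ioc)

theorem jmp_sub (k m : ℕ) {s t : ℝ} (hst : s ≤ t) {z : ℝ × ℝ} (hz : z ∈ okSet) :
    jmp k m t z - jmp k m s z = sz m z * (Ioc s t).indicator (fun _ => (1 : ℝ)) (k + z.1) := by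
  unfold jmp
  by_cases h1 : k + z.1 ≤ s
  · rw [if_pos ⟨hz, h1.trans hst⟩, if_pos ⟨hz, h1⟩, sub_self, indicator_of_notMem, mul_zero]
    exact fun h => absurd h.1 (not_lt.2 h1)
  · rw [if_neg (c := z ∈ okSet ∧ k + z.1 ≤ s) (fun h => h1 h.2)]
    by_cases h2 : k + z.1 ≤ t
    · rw [if_pos ⟨hz, h2⟩, indicator_of_mem (show (k : ℝ) + z.1 ∈ Ioc s t from ⟨not_le.1 h1, h2⟩), mul_one, sub_zero]
    · rw [if_neg (fun h => h2 h.2), indicator_of_notMem (fun h => h2 h.2), mul_zero, sub_zero]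

/-- the contribution of one mark to the linear combination of the increments -/
noncomputable def hh {n : ℕ} (t : Fin (n + 1) → ℝ) (θ : Fin n → ℝ) (p : Ix) (z : ℝ × ℝ) : ℝ :=
  ∑ j, θ j * (sg p.2.2 * (jmp p.1 p.2.1 (t j.succ) z - jmp p.1 p.2.1 (t j.castSucc) z))

theorem measurable_hh {n : ℕ} (t : Fin (n + 1) → ℝ) (θ : Fin n → ℝ) (p : Ix) :
    Measurable (hh t θ p) := by
  unfold hh
  exact Finset.measurable_sum _ fun j _ =>
    (((measurable_jmp _ _ _).sub (measurable_jmp _ _ _)).const_mul _).const_mul _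

theorem cexp_hh {n : ℕ} {t : Fin (n + 1) → ℝ} (ht : Monotone t) (θ : Fin n → ℝ) (p : Ix)
    {z : ℝ × ℝ} (hz : z ∈ okSet) :
    Complex.exp (hh t θ p z * Complex.I) - 1 =
      ∑ j, (Ioc (t j.castSucc) (t j.succ)).indicator (fun _ => (1 : ℂ)) (p.1 + z.1) *
        F (θ j * sg p.2.2) (p.2.1 + z.2) := by
  have h := cexp_step ht (fun j => ((θ j * sg p.2.2 * pw (p.2.1 + z.2) : ℝ) : ℂ) * Complex.I)
    ((p.1 : ℝ) + z.1)
  have h1 : (hh t θ p z * Complex.I : ℂ) =
      step t (fun j => ((θ j * sg p.2.2 * pw (p.2.1 + z.2) : ℝ) : ℂ) * Complex.I)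
        ((p.1 : ℝ) + z.1) := by
    unfold hh step
    rw [Complex.ofReal_sum, Finset.sum_mul]
    refine Finset.sum_congr rfl fun j _ => ?_
    rw [jmp_sub _ _ (ht (Fin.castSucc_le_succ j)) hz]
    have h2 : sz p.2.1 z = pw (p.2.1 + z.2) := rfl
    rw [h2]
    by_cases h3 : (p.1 : ℝ) + z.1 ∈ Ioc (t j.castSucc) (t j.succ)
    · rw [indicator_of_mem h3, indicator_of_mem h3]
      push_cast
      ring
    · rw [indicator_of_notMem h3, indicator_of_notMem h3]
      push_cast
      ring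
  rw [h1, h]
  refine Finset.sum_congr rfl fun j _ => ?_
  rw [mul_comm]
  rfl

theorem integral_hh {n : ℕ} {t : Fin (n + 1) → ℝ} (ht : Monotone t) (θ : Fin n → ℝ) (p : Ix) :
    (∫ z, Complex.exp (hh t θ p z * Complex.I) ∂mkl) - 1 =
      ∑ j, (∫ u, (Ioc (t j.castSucc) (t j.succ)).indicator (fun _ => (1 : ℂ)) (p.1 + u) ∂unif) *
        ∫ v, F (θ j * sg p.2.2) (p.2.1 + v) ∂unif := by
  have hint : Integrable (fun z => Complex.exp (hh t θ p z * Complex.I)) mkl := by
    refine Integrable.of_bound ?_ 1 (ae_of_all _ fun z => ?_)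
    · have := measurable_hh t θ p
      apply Measurable.aestronglyMeasurable
      fun_prop
    · rw [Complex.norm_exp_ofReal_mul_I]
  have h0 : (∫ z, Complex.exp (hh t θ p z * Complex.I) ∂mkl) - 1 =
      ∫ z, (Complex.exp (hh t θ p z * Complex.I) - 1) ∂mkl := by
    rw [integral_sub hint (integrable_const _)]
    simp
  have h1 : ∫ z, (Complex.exp (hh t θ p z * Complex.I) - 1) ∂mkl =
      ∫ z, ∑ j, (Ioc (t j.castSucc) (t j.succ)).indicator (fun _ => (1 : ℂ)) (p.1 + z.1) *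
        F (θ j * sg p.2.2) (p.2.1 + z.2) ∂mkl := by
    apply integral_congr_ae
    filter_upwards [ae_ok] with z hz
    exact cexp_hh ht θ p hz
  rw [h0, h1, integral_finsetSum]
  · refine Finset.sum_congr rfl fun j _ => ?_
    unfold mkl
    rw [integral_prod_mul (fun u : ℝ => (Ioc (t j.castSucc) (t j.succ)).indicator
      (fun _ => (1 : ℂ)) (p.1 + u)) (fun v : ℝ => F (θ j * sg p.2.2) (p.2.1 + v))]
  · intro j _
    refine Integrable.of_bound ?_ 2 (ae_of_all _ fun z => ?_)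
    · apply Measurable.aestronglyMeasurable
      apply Measurable.mul
      · exact (measurable_const.indicator measurableSet_Ioc).comp
          (measurable_const.add measurable_fst)
      · exact (measurable_F _).comp (measurable_const.add measurable_snd)
    · rw [norm_mul]
      have h2 : ‖(Ioc (t j.castSucc) (t j.succ)).indicator (fun _ => (1 : ℂ)) ((p.1 : ℝ) + z.1)‖
          ≤ 1 := by
        simp only [indicator]
        split_ifs <;> simp
      have h3 : ‖F (θ j * sg p.2.2) (p.2.1 + z.2)‖ ≤ 2 := norm_cexp_sub_one_le_two _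
      nlinarith [norm_nonneg (F (θ j * sg p.2.2) (p.2.1 + z.2)), norm_nonneg
        ((Ioc (t j.castSucc) (t j.succ)).indicator (fun _ => (1 : ℂ)) ((p.1 : ℝ) + z.1))]

/-- the finite sets of blocks -/
def SS (M : ℕ) : Finset Ix := Finset.range M ×ˢ (Finset.range M ×ˢ Finset.univ)

/-- the exponent of the truncated process -/
noncomputable def Psi (M : ℕ) (θ : ℝ) : ℂ :=
  (∫ w in (0 : ℝ)..M, F θ w) + ∫ w in (0 : ℝ)..M, F (-θ) w

theorem tendsto_Psi (θ : ℝ) : Tendsto (fun M => Psi M θ) atTop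
    (𝓝 ((-(2 * (|θ| ^ (1 / 6 : ℝ) * c0)) : ℝ) : ℂ)) := by
  rw [← integral_F_add]
  unfold Psi
  exact (intervalIntegral_tendsto_integral_Ioi 0 (integrableOn_F θ)
    tendsto_natCast_atTop_atTop).add (intervalIntegral_tendsto_integral_Ioi 0
    (integrableOn_F (-θ)) tendsto_natCast_atTop_atTop)

theorem sum_integral_hh {n : ℕ} {t : Fin (n + 1) → ℝ} (ht : Monotone t) (ht0 : 0 ≤ t 0)
    (θ : Fin n → ℝ) {M : ℕ} (hM : t (Fin.last n) ≤ M) :
    ∑ p ∈ SS M, ((∫ z, Complex.exp (hh t θ p z * Complex.I) ∂mkl) - 1) =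
      ∑ j, ((t j.succ - t j.castSucc : ℝ) : ℂ) * Psi M (θ j) := by
  simp_rw [integral_hh ht θ]
  unfold SS
  rw [Finset.sum_product]
  simp_rw [Finset.sum_product]
  have h1 : ∀ (k m : ℕ), ∑ b : Bool, ∑ j,
      (∫ u, (Ioc (t j.castSucc) (t j.succ)).indicator (fun _ => (1 : ℂ)) (k + u) ∂unif) *
        ∫ v, F (θ j * sg b) (m + v) ∂unif =
      ∑ j, (∫ u, (Ioc (t j.castSucc) (t j.succ)).indicator (fun _ => (1 : ℂ)) (k + u) ∂unif) *
        ((∫ v, F (θ j) (m + v) ∂unif) + ∫ v, F (-θ j) (m + v) ∂unif) := by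
    intro k m
    rw [Finset.sum_comm]
    refine Finset.sum_congr rfl fun j _ => ?_
    rw [Fintype.sum_bool]
    simp only [sg, if_true, Bool.false_eq_true, if_false, mul_one, mul_neg]
    ring
  simp_rw [h1]
  have h2 : ∀ k : ℕ, ∑ m ∈ Finset.range M, ∑ j,
      (∫ u, (Ioc (t j.castSucc) (t j.succ)).indicator (fun _ => (1 : ℂ)) (k + u) ∂unif) *
        ((∫ v, F (θ j) (m + v) ∂unif) + ∫ v, F (-θ j) (m + v) ∂unif) =
      ∑ j, (∫ u, (Ioc (t j.castSucc) (t j.succ)).indicator (fun _ => (1 : ℂ)) (k + u) ∂unif) *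
        Psi M (θ j) := by
    intro k
    rw [Finset.sum_comm]
    refine Finset.sum_congr rfl fun j _ => ?_
    rw [← Finset.mul_sum, Finset.sum_add_distrib,
      sum_integral_unif M (intervalIntegrable_F (θ j)),
      sum_integral_unif M (intervalIntegrable_F (-θ j))]
    rfl
  simp_rw [h2]
  rw [Finset.sum_comm]
  refine Finset.sum_congr rfl fun j _ => ?_
  rw [← Finset.sum_mul, sum_integral_unif M fun a b => intervalIntegrable_indicator _ _ a b,
    integral_indicator_Ioc (ht0.trans (ht (Fin.zero_le _))) (ht (Fin.castSucc_le_succ j))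
      ((ht (Fin.le_last j.succ)).trans hM)]

/-- the truncated linear combination of the increments -/
noncomputable def DM {n : ℕ} (t : Fin (n + 1) → ℝ) (θ : Fin n → ℝ) (M : ℕ) (ω : Om) : ℝ :=
  ∑ p ∈ SS M, ∑ i ∈ Finset.range (ω p).1, hh t θ p ((ω p).2 i)

theorem measurable_DM {n : ℕ} (t : Fin (n + 1) → ℝ) (θ : Fin n → ℝ) (M : ℕ) :
    Measurable (DM t θ M) := by
  unfold DM
  exact Finset.measurable_sum _ fun p _ =>
    (measurable_blk_sum (measurable_hh t θ p)).comp (measurable_pi_apply p)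

theorem integral_DM (r : ℝ≥0) {n : ℕ} {t : Fin (n + 1) → ℝ} (ht : Monotone t) (ht0 : 0 ≤ t 0)
    (θ : Fin n → ℝ) {M : ℕ} (hM : t (Fin.last n) ≤ M) :
    ∫ ω, Complex.exp (DM t θ M ω * Complex.I) ∂(PP r) =
      ∏ j, Complex.exp (((t j.succ - t j.castSucc : ℝ) : ℂ) * (r * Psi M (θ j))) := by
  have h1 : ∀ ω : Om, Complex.exp (DM t θ M ω * Complex.I) =
      ∏ p ∈ SS M, ∏ i ∈ Finset.range (ω p).1,
        Complex.exp (hh t θ p ((ω p).2 i) * Complex.I) := by
    intro ω
    unfold DM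
    rw [Complex.ofReal_sum, Finset.sum_mul, Complex.exp_sum]
    refine Finset.prod_congr rfl fun p _ => ?_
    rw [Complex.ofReal_sum, Finset.sum_mul, Complex.exp_sum]
  simp_rw [h1]
  rw [integral_PP r (SS M) (g := fun p z => Complex.exp (hh t θ p z * Complex.I))
    (fun p => by have := measurable_hh t θ p; fun_prop)
    (fun p z => by rw [Complex.norm_exp_ofReal_mul_I]), ← Complex.exp_sum, ← Finset.mul_sum,
    sum_integral_hh ht ht0 θ hM, ← Complex.exp_sum, Finset.mul_sum]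
  congr 1
  exact Finset.sum_congr rfl fun j _ => by ring

/-- partial sums of `T` -/
noncomputable def ps (b : Bool) (t : ℝ) (M : ℕ) (ω : Om) : ℝ :=
  ∑ p ∈ Finset.range M ×ˢ Finset.range M, f b t ω p

theorem tendsto_ps {ω : Om} (hω : ω ∈ G) (b : Bool) (t : ℝ) :
    Tendsto (fun M => ps b t M ω) atTop (𝓝 (T b t ω)) := by
  rw [T_eq hω]
  have h1 : Tendsto (fun M : ℕ => Finset.range M ×ˢ Finset.range M) atTop atTop := by
    apply tendsto_atTop_finset_of_monotone
    · intro a b hab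
      exact Finset.product_subset_product (Finset.range_subset_range.2 hab)
        (Finset.range_subset_range.2 hab)
    · rintro ⟨k, m⟩
      refine ⟨max k m + 1, ?_⟩
      rw [Finset.mem_product, Finset.mem_range, Finset.mem_range]
      constructor <;> simp only <;> omega
  exact (summable_f hω b t).hasSum.comp h1

theorem DM_eq {n : ℕ} (t : Fin (n + 1) → ℝ) (θ : Fin n → ℝ) (M : ℕ) (ω : Om) :
    DM t θ M ω = ∑ j, θ j * ((ps true (t j.succ) M ω - ps false (t j.succ) M ω) -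
      (ps true (t j.castSucc) M ω - ps false (t j.castSucc) M ω)) := by
  have h1 : ∀ p : Ix, ∑ i ∈ Finset.range (ω p).1, hh t θ p ((ω p).2 i) =
      ∑ j, θ j * (sg p.2.2 * (f p.2.2 (t j.succ) ω (p.1, p.2.1) -
        f p.2.2 (t j.castSucc) ω (p.1, p.2.1))) := by
    intro p
    unfold hh
    rw [Finset.sum_comm]
    refine Finset.sum_congr rfl fun j _ => ?_
    rw [← Finset.mul_sum, ← Finset.mul_sum, Finset.sum_sub_distrib]
    rfl
  unfold DM
  simp_rw [h1]
  rw [Finset.sum_comm]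
  refine Finset.sum_congr rfl fun j _ => ?_
  rw [← Finset.mul_sum]
  congr 1
  unfold SS ps
  rw [Finset.sum_product, ← Finset.sum_sub_distrib, ← Finset.sum_sub_distrib,
    ← Finset.sum_sub_distrib, Finset.sum_product]
  refine Finset.sum_congr rfl fun k _ => ?_
  rw [Finset.sum_product]
  refine Finset.sum_congr rfl fun m _ => ?_
  rw [Fintype.sum_bool]
  simp only [sg, if_true, Bool.false_eq_true, if_false]
  ring

theorem tendsto_DM {ω : Om} (hω : ω ∈ G) {n : ℕ} (t : Fin (n + 1) → ℝ) (θ : Fin n → ℝ) :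
    Tendsto (fun M => DM t θ M ω) atTop
      (𝓝 (∑ j, θ j * (X (t j.succ) ω - X (t j.castSucc) ω))) := by
  simp_rw [DM_eq]
  refine tendsto_finsetSum _ fun j _ => Tendsto.const_mul _ ?_
  exact ((tendsto_ps hω _ _).sub (tendsto_ps hω _ _)).sub
    ((tendsto_ps hω _ _).sub (tendsto_ps hω _ _))

/-- the rate -/
noncomputable def rate : ℝ≥0 := ⟨(2 * c0)⁻¹, by have := c0_pos; positivity⟩

theorem rate_mul (x : ℝ) : (rate : ℝ) * (-(2 * (x * c0))) = -x := by
  have := c0_pos
  change (2 * c0)⁻¹ * (-(2 * (x * c0))) = -x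
  field_simp

theorem joint {n : ℕ} {t : Fin (n + 1) → ℝ} (ht : Monotone t) (ht0 : 0 ≤ t 0) (θ : Fin n → ℝ) :
    ∫ ω, Complex.exp ((∑ j, θ j * (X (t j.succ) ω - X (t j.castSucc) ω) : ℝ) * Complex.I)
      ∂(PP rate) =
    ∏ j, ((Real.exp (-(t j.succ - t j.castSucc) * |θ j| ^ (1 / 6 : ℝ)) : ℝ) : ℂ) := by
  have h1 : Tendsto (fun M => ∫ ω, Complex.exp (DM t θ M ω * Complex.I) ∂(PP rate)) atTop
      (𝓝 (∫ ω, Complex.exp ((∑ j, θ j * (X (t j.succ) ω - X (t j.castSucc) ω) : ℝ) * Complex.I)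
        ∂(PP rate))) := by
    apply tendsto_integral_of_dominated_convergence (fun _ => (1 : ℝ))
    · intro M
      have := measurable_DM t θ M
      apply Measurable.aestronglyMeasurable
      fun_prop
    · exact integrable_const _
    · intro M
      exact ae_of_all _ fun ω => by rw [Complex.norm_exp_ofReal_mul_I]
    · filter_upwards [ae_G rate] with ω hω
      apply (Complex.continuous_exp.tendsto _).comp
      exact ((Complex.continuous_ofReal.tendsto _).comp (tendsto_DM hω t θ)).mul_const _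
  have h2 : Tendsto (fun M => ∫ ω, Complex.exp (DM t θ M ω * Complex.I) ∂(PP rate)) atTop
      (𝓝 (∏ j, ((Real.exp (-(t j.succ - t j.castSucc) * |θ j| ^ (1 / 6 : ℝ)) : ℝ) : ℂ))) := by
    have h3 : Tendsto (fun M : ℕ => ∏ j, Complex.exp (((t j.succ - t j.castSucc : ℝ) : ℂ) *
        (rate * Psi M (θ j)))) atTop
        (𝓝 (∏ j, ((Real.exp (-(t j.succ - t j.castSucc) * |θ j| ^ (1 / 6 : ℝ)) : ℝ) : ℂ))) := by
      refine tendsto_finsetProd _ fun j _ => ?_
      have h4 : ((Real.exp (-(t j.succ - t j.castSucc) * |θ j| ^ (1 / 6 : ℝ)) : ℝ) : ℂ) =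
          Complex.exp (((t j.succ - t j.castSucc : ℝ) : ℂ) *
            (rate * ((-(2 * (|θ j| ^ (1 / 6 : ℝ) * c0)) : ℝ) : ℂ))) := by
        have h5 : ((rate : ℝ) : ℂ) * ((-(2 * (|θ j| ^ (1 / 6 : ℝ) * c0)) : ℝ) : ℂ) =
            ((-(|θ j| ^ (1 / 6 : ℝ)) : ℝ) : ℂ) := by
          rw [← Complex.ofReal_mul, rate_mul]
        rw [h5, ← Complex.ofReal_mul, ← Complex.ofReal_exp]
        congr 2
        ring
      rw [h4]
      exact (Complex.continuous_exp.tendsto _).comp
        (((tendsto_Psi (θ j)).const_mul _).const_mul _)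
    refine h3.congr' ?_
    filter_upwards [eventually_ge_atTop ⌈t (Fin.last n)⌉₊] with M hM
    exact (integral_DM rate ht ht0 θ ((Nat.le_ceil _).trans (by exact_mod_cast hM))).symm
  exact tendsto_nhds_unique h1 h2

theorem single {a b : ℝ} (ha : 0 ≤ a) (hab : a ≤ b) (θ : ℝ) :
    ∫ ω, Complex.exp (((θ * (X b ω - X a ω) : ℝ) : ℂ) * Complex.I) ∂(PP rate) =
      ((Real.exp (-(b - a) * |θ| ^ (1 / 6 : ℝ)) : ℝ) : ℂ) := by
  have h := joint (n := 1) (t := ![a, b]) (by
    intro i j hij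
    fin_cases i <;> fin_cases j <;> simp at hij ⊢
    exact hab) (by simpa using ha) (fun _ => θ)
  simpa using h

theorem indep (n : ℕ) (t : Fin (n + 1) → ℝ) (ht0 : 0 ≤ t 0) (ht : Monotone t) :
    iIndepFun (fun (i : Fin n) (ω : Om) => X (t i.succ) ω - X (t i.castSucc) ω) (PP rate) := by
  have hm : ∀ i : Fin n, AEMeasurable (fun ω => X (t i.succ) ω - X (t i.castSucc) ω)
      (PP rate) := fun i => ((measurable_X _).sub (measurable_X _)).aemeasurable
  rw [iIndepFun_iff_charFun_pi hm]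
  intro θ
  have h1 := joint ht ht0 (fun j => θ j)
  have h2 : ∀ j : Fin n, charFun ((PP rate).map
      (fun ω => X (t j.succ) ω - X (t j.castSucc) ω)) (θ j) =
      ((Real.exp (-(t j.succ - t j.castSucc) * |θ j| ^ (1 / 6 : ℝ)) : ℝ) : ℂ) := by
    intro j
    rw [← single (ht0.trans (ht (Fin.zero_le _))) (ht (Fin.castSucc_le_succ j)) (θ j),
      charFun_apply, integral_map (hm j) (by fun_prop)]
    congr with ω
  simp_rw [h2]
  rw [← h1, charFun_apply, integral_map]
  · congr with ω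
  · apply Measurable.aemeasurable
    apply (WithLp.measurable_toLp 2 _).comp
    exact measurable_pi_lambda _ (fun j => (measurable_X _).sub (measurable_X _))
  · fun_prop

end Q298.St
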