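import Pool.Agent.Q298.St.Block

/-!
# The process: sum of signed jumps `± (m + v) ^ (-6)` at the times `k + u`

`(u, v)` runs through the marks of the block `(k, m, ±)`.
-/

set_option autoImplicit false

open MeasureTheory ProbabilityTheory Set Filter Topology
open scoped NNReal ENNReal

namespace Q298.St

/-- admissible marks -/
def okSet : Set (ℝ × ℝ) := Ioc (0 : ℝ) 1 ×ˢ Ioc (0 : ℝ) 1

theorem measurableSet_ok : MeasurableSet okSet := measurableSet_Ioc.prod measurableSet_Ioc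

/-- the jump size of a mark of level `m` -/
noncomputable def sz (m : ℕ) (z : ℝ × ℝ) : ℝ := (((m : ℝ) + z.2) ^ 6)⁻¹

theorem sz_nonneg (m : ℕ) (z : ℝ × ℝ) : 0 ≤ sz m z := by unfold sz; positivity

theorem measurable_sz (m : ℕ) : Measurable (sz m) := by unfold sz; fun_prop

open Classical in
/-- contribution of a mark of the block `(k, m)` up to time `t` -/
noncomputable def jmp (k m : ℕ) (t : ℝ) (z : ℝ × ℝ) : ℝ :=
  if z ∈ okSet ∧ k + z.1 ≤ t then sz m z else 0

theorem jmp_nonneg (k m : ℕ) (t : ℝ) (z : ℝ × ℝ) : 0 ≤ jmp k m t z := by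
  unfold jmp
  split_ifs
  · exact sz_nonneg m z
  · exact le_rfl

theorem jmp_mono (k m : ℕ) (z : ℝ × ℝ) : Monotone (fun t => jmp k m t z) := by
  intro s t hst
  unfold jmp
  simp only
  by_cases h1 : z ∈ okSet ∧ k + z.1 ≤ s
  · rw [if_pos h1, if_pos ⟨h1.1, h1.2.trans hst⟩]
  · rw [if_neg h1]
    split_ifs
    · exact sz_nonneg m z
    · exact le_rfl

theorem jmp_eq_zero {k : ℕ} (m : ℕ) {t : ℝ} (ht : t ≤ k) (z : ℝ × ℝ) : jmp k m t z = 0 := by
  unfold jmp
  rw [if_neg]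
  rintro ⟨h1, h2⟩
  have : 0 < z.1 := h1.1.1
  linarith

theorem sz_le {m : ℕ} (hm : 1 ≤ m) {z : ℝ × ℝ} (hz : z ∈ okSet) : sz m z ≤ 1 / (m : ℝ) ^ 2 := by
  have h1 : (1 : ℝ) ≤ m := by exact_mod_cast hm
  have h2 : 0 < z.2 := hz.2.1
  unfold sz
  rw [← one_div]
  apply one_div_le_one_div_of_le (by positivity)
  calc (m : ℝ) ^ 2 ≤ (m : ℝ) ^ 6 := pow_le_pow_right₀ h1 (by norm_num)
    _ ≤ ((m : ℝ) + z.2) ^ 6 := by gcongr; linarith

theorem jmp_le (k : ℕ) {m : ℕ} (hm : 1 ≤ m) (t : ℝ) (z : ℝ × ℝ) : jmp k m t z ≤ 1 / (m : ℝ) ^ 2 := by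
  unfold jmp
  split_ifs with h
  · exact sz_le hm h.1
  · positivity

theorem jmp_right (k m : ℕ) (t : ℝ) (z : ℝ × ℝ) : ∀ᶠ s in 𝓝[≥] t, jmp k m s z = jmp k m t z := by
  unfold jmp
  by_cases h : z ∈ okSet
  · by_cases h1 : k + z.1 ≤ t
    · filter_upwards [self_mem_nhdsWithin] with s hs
      rw [if_pos ⟨h, h1.trans hs⟩, if_pos ⟨h, h1⟩]
    · have h2 : ∀ᶠ s in 𝓝 t, s < k + z.1 := eventually_lt_nhds (not_le.1 h1)
      filter_upwards [mem_nhdsWithin_of_mem_nhds h2] with s hs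
      rw [if_neg (fun h' => absurd h'.2 (not_le.2 hs)), if_neg (fun h' => h1 h'.2)]
  · filter_upwards with s
    rw [if_neg (fun h' => h h'.1), if_neg (fun h' => h h'.1)]

theorem measurable_jmp (k m : ℕ) (t : ℝ) : Measurable (jmp k m t) := by
  unfold jmp
  refine Measurable.ite ?_ (measurable_sz m) measurable_const
  exact measurableSet_ok.inter (measurableSet_le (measurable_const.add measurable_fst)
    measurable_const)

theorem measurable_blk_sum {g : ℝ × ℝ → ℝ} (hg : Measurable g) :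
    Measurable (fun b : Blk => ∑ i ∈ Finset.range b.1, g (b.2 i)) := by
  apply measurable_from_prod_countable_right
  intro k
  simp only
  exact Finset.measurable_sum (Finset.range k) (fun i _ => hg.comp (measurable_pi_apply i))

/-- the contribution of a block up to time `t` -/
noncomputable def f (b : Bool) (t : ℝ) (ω : Om) (p : ℕ × ℕ) : ℝ :=
  ∑ i ∈ Finset.range (ω (p.1, p.2, b)).1, jmp p.1 p.2 t ((ω (p.1, p.2, b)).2 i)

theorem f_nonneg (b : Bool) (t : ℝ) (ω : Om) (p : ℕ × ℕ) : 0 ≤ f b t ω p :=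
  Finset.sum_nonneg fun _ _ => jmp_nonneg _ _ _ _

theorem f_mono (b : Bool) (ω : Om) (p : ℕ × ℕ) : Monotone (fun t => f b t ω p) := by
  intro s t hst
  exact Finset.sum_le_sum fun i _ => jmp_mono _ _ _ hst

theorem f_eq_zero (b : Bool) {t : ℝ} (ω : Om) {p : ℕ × ℕ} (h : t ≤ p.1) : f b t ω p = 0 :=
  Finset.sum_eq_zero fun _ _ => jmp_eq_zero _ h _

theorem f_le (b : Bool) (t : ℝ) (ω : Om) (k : ℕ) {m : ℕ} (hm : 1 ≤ m) :
    f b t ω (k, m) ≤ (ω (k, m, b)).1 * (1 / (m : ℝ) ^ 2) := by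
  unfold f
  calc ∑ i ∈ Finset.range (ω (k, m, b)).1, jmp k m t ((ω (k, m, b)).2 i)
      ≤ ∑ _i ∈ Finset.range (ω (k, m, b)).1, (1 / (m : ℝ) ^ 2) :=
        Finset.sum_le_sum fun i _ => jmp_le k hm t _
    _ = _ := by simp

theorem measurable_f (b : Bool) (t : ℝ) (p : ℕ × ℕ) : Measurable (fun ω => f b t ω p) :=
  (measurable_blk_sum (measurable_jmp p.1 p.2 t)).comp (measurable_pi_apply (p.1, p.2, b))

theorem f_right (b : Bool) (t : ℝ) (ω : Om) (p : ℕ × ℕ) :
    Tendsto (fun s => f b s ω p) (𝓝[≥] t) (𝓝 (f b t ω p)) := by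
  unfold f
  refine tendsto_finsetSum _ fun i _ => ?_
  exact tendsto_const_nhds.congr' ((jmp_right _ _ t _).mono fun s hs => hs.symm)

/-- the good event -/
def G : Set Om :=
  {ω | ∀ (k : ℕ) (b : Bool), Summable fun m : ℕ => ((ω (k, m, b)).1 : ℝ) * (1 / (m : ℝ) ^ 2)}

theorem summable_f {ω : Om} (hω : ω ∈ G) (b : Bool) (t : ℝ) : Summable (f b t ω) := by
  rw [summable_prod_of_nonneg (fun p => f_nonneg b t ω p)]
  refine ⟨fun k => ?_, ?_⟩
  · refine Summable.of_norm_bounded_eventually_nat (hω k b) ?_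
    filter_upwards [eventually_ge_atTop 1] with m hm
    rw [Real.norm_of_nonneg (f_nonneg _ _ _ _)]
    exact f_le b t ω k hm
  · refine summable_of_ne_finset_zero (s := Finset.range ⌈t⌉₊) fun k hk => ?_
    rw [Finset.mem_range, not_lt] at hk
    have h1 : t ≤ k := Nat.ceil_le.1 hk
    have : ∀ m, f b t ω (k, m) = 0 := fun m => f_eq_zero b ω h1
    simp [this]

/-- the sum of the jumps of one sign -/
noncomputable def T (b : Bool) (t : ℝ) (ω : Om) : ℝ := (∑' p, ENNReal.ofReal (f b t ω p)).toReal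

theorem T_eq {ω : Om} (hω : ω ∈ G) (b : Bool) (t : ℝ) : T b t ω = ∑' p, f b t ω p := by
  unfold T
  rw [← ENNReal.ofReal_tsum_of_nonneg (fun p => f_nonneg b t ω p) (summable_f hω b t),
    ENNReal.toReal_ofReal (tsum_nonneg fun p => f_nonneg b t ω p)]

theorem measurable_T (b : Bool) (t : ℝ) : Measurable (T b t) := by
  unfold T
  exact (Measurable.tsum fun p => (measurable_f b t p).ennreal_ofReal).ennreal_toReal

theorem T_zero (b : Bool) (ω : Om) {t : ℝ} (ht : t ≤ 0) : T b t ω = 0 := by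
  unfold T
  have : ∀ p, f b t ω p = 0 := fun p => f_eq_zero b ω (ht.trans (Nat.cast_nonneg _))
  simp [this]

theorem T_mono {ω : Om} (hω : ω ∈ G) (b : Bool) : Monotone (fun t => T b t ω) := by
  intro s t hst
  simp only [T_eq hω]
  exact (summable_f hω b s).tsum_le_tsum (fun p => f_mono b ω p hst) (summable_f hω b t)

theorem T_right {ω : Om} (hω : ω ∈ G) (b : Bool) (t : ℝ) :
    Tendsto (fun s => T b s ω) (𝓝[≥] t) (𝓝 (T b t ω)) := by
  simp only [T_eq hω]
  refine tendsto_tsum_of_dominated_convergence (bound := f b (t + 1) ω)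
    (summable_f hω b (t + 1)) (fun p => f_right b t ω p) ?_
  have h1 : ∀ᶠ s in 𝓝 t, s < t + 1 := eventually_lt_nhds (by linarith)
  filter_upwards [mem_nhdsWithin_of_mem_nhds h1] with s hs p
  rw [Real.norm_of_nonneg (f_nonneg _ _ _ _)]
  exact f_mono b ω p hs.le

/-- The process. -/
noncomputable def X (t : ℝ) (ω : Om) : ℝ := T true t ω - T false t ω

theorem measurable_X (t : ℝ) : Measurable (X t) := (measurable_T true t).sub (measurable_T false t)

theorem X_zero (ω : Om) : X 0 ω = 0 := by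
  unfold X; rw [T_zero _ _ le_rfl, T_zero _ _ le_rfl, sub_zero]

theorem X_right {ω : Om} (hω : ω ∈ G) (t : ℝ) :
    ContinuousWithinAt (fun s => X s ω) (Ici t) t :=
  (T_right hω true t).sub (T_right hω false t)

theorem X_left {ω : Om} (hω : ω ∈ G) (t : ℝ) :
    ∃ l : ℝ, Tendsto (fun s => X s ω) (𝓝[<] t) (𝓝 l) :=
  ⟨_, ((T_mono hω true).tendsto_nhdsLT t).sub ((T_mono hω false).tendsto_nhdsLT t)⟩

theorem ae_G (r : ℝ≥0) : ∀ᵐ ω ∂(PP r), ω ∈ G := by
  suffices key : ∀ (k : ℕ) (b : Bool), ∀ᵐ ω ∂(PP r),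
      Summable fun m : ℕ => ((ω (k, m, b)).1 : ℝ) * (1 / (m : ℝ) ^ 2) by
    have h2 := ae_all_iff.2 fun k => ae_all_iff.2 fun b => key k b
    filter_upwards [h2] with ω h using h
  intro k b
  have h1 : ∫⁻ ω : Om, ∑' m : ℕ, ENNReal.ofReal (((ω (k, m, b)).1 : ℝ) * (1 / (m : ℝ) ^ 2))
      ∂(PP r) ≠ ∞ := by
    have hm : ∀ m : ℕ, Measurable (fun ω : Om => ((ω (k, m, b)).1 : ℝ≥0∞)) := fun m =>
      (measurable_of_countable (fun n : ℕ => (n : ℝ≥0∞))).comp (measurable_count (k, m, b))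
    have h2 : ∀ (m : ℕ) (ω : Om), ENNReal.ofReal (((ω (k, m, b)).1 : ℝ) * (1 / (m : ℝ) ^ 2)) =
        ENNReal.ofReal (1 / (m : ℝ) ^ 2) * ((ω (k, m, b)).1 : ℝ≥0∞) := by
      intro m ω
      rw [mul_comm, ENNReal.ofReal_mul (by positivity), ENNReal.ofReal_natCast]
    simp_rw [h2]
    rw [lintegral_tsum fun m => ((hm m).const_mul _).aemeasurable]
    simp_rw [fun m => lintegral_const_mul (μ := PP r) (ENNReal.ofReal (1 / ((m : ℕ) : ℝ) ^ 2)) (hm m)]
    refine ne_top_of_le_ne_top ?_ (ENNReal.tsum_le_tsum fun m =>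
      mul_le_mul_right (lintegral_count r (k, m, b)) _)
    rw [ENNReal.tsum_mul_right]
    refine ENNReal.mul_ne_top ?_ ENNReal.ofReal_ne_top
    rw [← ENNReal.ofReal_tsum_of_nonneg (fun m => by positivity)
      (Real.summable_one_div_nat_pow.mpr one_lt_two)]
    exact ENNReal.ofReal_ne_top
  have h3 : Measurable (fun ω : Om =>
      ∑' m : ℕ, ENNReal.ofReal (((ω (k, m, b)).1 : ℝ) * (1 / (m : ℝ) ^ 2))) := by
    refine Measurable.tsum fun m => ?_
    exact (((measurable_of_countable (fun n : ℕ => (n : ℝ))).comp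
      (measurable_count (k, m, b))).mul_const _).ennreal_ofReal
  filter_upwards [ae_lt_top h3 h1] with ω hω
  have h4 := ENNReal.summable_toReal hω.ne
  refine h4.congr fun m => ?_
  rw [ENNReal.toReal_ofReal (by positivity)]

end Q298.St
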